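import Pool.Agent.helper10.QT.SpecY

/-!
# Row bq:GQC (MP_bf63dc_nt): a clique of good quotients

For `K ≥ 1` take `k = 4 K` and the box theorem `BOXk k` with the constant `K₀`; the sets
`H i = {(1 + |c| (i K₀ + x + 1), c) | x < K₀}` consist of forms with different first entries, prime to `c`.  A tuple of them is admissible:
for a prime `p ∣ c` the values at `n = 1` are `1` modulo `p`, for `p ∤ c` the values at `0` are `c`.  So for infinitely many `n` more
than `(1/4 + 1/500000) 4 K > K` of the forms of some tuple are prime; some set `I` of more than `K` indices occurs for infinitely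
many `n`.  The first entries of `K` of these forms are the clique.
-/

set_option autoImplicit false

namespace Pool.Agent.AT

open Finset Pool.Agent.helper85.FC

/-- the first entries -/
def GQC_s (c : ℤ) (i x : ℕ) (L : ℕ) : ℕ := 1 + c.natAbs * (i * L + x + 1)

theorem GQC_s_inj {c : ℤ} (hc : c ≠ 0) {L i x j y : ℕ} (hx : x < L) (hy : y < L)
    (h : GQC_s c i x L = GQC_s c j y L) : i = j ∧ x = y := by
  unfold GQC_s at h
  have hc' : 0 < c.natAbs := Int.natAbs_pos.2 hc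
  have h1 : i * L + x + 1 = j * L + y + 1 := Nat.eq_of_mul_eq_mul_left hc' (by omega)
  have h2 : i * L + x = j * L + y := by omega
  have h3 : (i * L + x) % L = (j * L + y) % L := by rw [h2]
  rw [Nat.mul_add_mod', Nat.mul_add_mod', Nat.mod_eq_of_lt hx, Nat.mod_eq_of_lt hy] at h3
  have hL : 0 < L := by omega
  have h4 : i * L = j * L := by omega
  exact ⟨Nat.eq_of_mul_eq_mul_right hL h4, h3⟩

/-- the sets of forms -/
def GQC_H (c : ℤ) (L i : ℕ) : Finset (ℕ × ℤ) := (range L).image fun x => (GQC_s c i x L, c)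

theorem GQC_card {c : ℤ} (hc : c ≠ 0) (L i : ℕ) : #(GQC_H c L i) = L := by
  unfold GQC_H
  rw [card_image_of_injOn, card_range]
  intro x hx y hy h
  rw [mem_coe, mem_range] at hx hy
  have h1 : GQC_s c i x L = GQC_s c i y L := congrArg Prod.fst h
  exact (GQC_s_inj hc hx hy h1).2

theorem GQC_mem {c : ℤ} {L i : ℕ} {f : ℕ × ℤ} (h : f ∈ GQC_H c L i) :
    ∃ x < L, f = (GQC_s c i x L, c) := by
  unfold GQC_H at h
  rw [mem_image] at h
  obtain ⟨x, hx, rfl⟩ := h
  exact ⟨x, mem_range.1 hx, rfl⟩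

theorem GQC_coprime (c : ℤ) (i x L : ℕ) : IsCoprime ((GQC_s c i x L : ℕ) : ℤ) c := by
  unfold GQC_s
  push_cast
  have h1 : c ∣ |c| := (dvd_abs c c).2 dvd_rfl
  obtain ⟨d, hd⟩ := h1
  rw [hd]
  refine ⟨1, -(d * ((i : ℤ) * L + x + 1)), ?_⟩
  ring

theorem GQC_adm {c : ℤ} {L k : ℕ} (f : Fin k → ℕ × ℤ) (hf : ∀ i : Fin k, f i ∈ GQC_H c L i) : Adm f := by
  intro p hp
  by_cases hpc : (p : ℤ) ∣ c
  · refine ⟨1, fun i hi => ?_⟩
    obtain ⟨x, -, hx⟩ := GQC_mem (hf i)
    rw [hx] at hi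
    have h1 : (p : ℤ) ∣ |c| := (dvd_abs _ _).2 hpc
    unfold GQC_s at hi
    push_cast at hi
    have h2 : (p : ℤ) ∣ 1 := by
      have h3 : (1 : ℤ) = ((1 + |c| * ((i : ℕ) * L + x + 1)) * 1 + c) - (|c| * ((i : ℕ) * L + x + 1)) - c := by ring
      rw [h3]
      exact Int.dvd_sub (Int.dvd_sub hi (Dvd.dvd.mul_right h1 _)) hpc
    have h4 : (p : ℤ) ∣ ((1 : ℕ) : ℤ) := by exact_mod_cast h2
    rw [Int.natCast_dvd_natCast] at h4
    exact hp.one_lt.ne' (Nat.dvd_one.1 h4)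
  · refine ⟨0, fun i hi => hpc ?_⟩
    obtain ⟨x, -, hx⟩ := GQC_mem (hf i)
    rw [hx] at hi
    simpa using hi

theorem GQC_inj {c : ℤ} (hc : c ≠ 0) {L k : ℕ} (f : Fin k → ℕ × ℤ) (hf : ∀ i : Fin k, f i ∈ GQC_H c L i) :
    Function.Injective fun i => (f i).1 := by
  intro i j hij
  obtain ⟨x, hx, hfx⟩ := GQC_mem (hf i)
  obtain ⟨y, hy, hfy⟩ := GQC_mem (hf j)
  have h1 : GQC_s c i x L = GQC_s c j y L := by
    have h0 : (f i).1 = (f j).1 := hij
    rw [hfx, hfy] at h0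
    exact h0
  exact Fin.ext (GQC_s_inj hc hx hy h1).1

/-- one set of indices occurs for infinitely many `n` -/
theorem GQC_pigeon {k : ℕ} (f : Fin k → ℕ × ℤ) (K : ℕ) (h : ∀ N : ℕ, ∃ n ≥ N, K < hits f n) :
    ∃ I : Finset (Fin k), K < #I ∧ ∀ N : ℕ, ∃ n ≥ N, ∀ i ∈ I, (ev (f i) n).Prime := by
  by_contra hcon
  push Not at hcon
  choose g hg using hcon
  have hb : ∃ B : ℕ, ∀ (I : Finset (Fin k)) (hI : K < #I), g I hI ≤ B := by
    classical
    refine ⟨∑ I : Finset (Fin k), if hI : K < #I then g I hI else 0, fun I hI => ?_⟩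
    have h1 := single_le_sum (f := fun I : Finset (Fin k) => if hI : K < #I then g I hI else 0)
      (fun _ _ => Nat.zero_le _) (mem_univ I)
    simp only [dif_pos hI] at h1
    exact h1
  obtain ⟨B, hB⟩ := hb
  obtain ⟨n, hn, hK⟩ := h B
  obtain ⟨i, hi, hni⟩ := hg (univ.filter fun i : Fin k => (ev (f i) n).Prime) hK n ((hB _ hK).trans hn)
  exact hni (mem_filter.1 hi).2

theorem GQC (h1 : GQ1_stmt) : GQC_stmt := by
  intro hbox K c hc
  rcases Nat.eq_zero_or_pos K with rfl | hK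
  · exact ⟨∅, rfl, by simp, by simp⟩
  obtain ⟨L, hL⟩ := hbox (4 * K) (by omega)
  obtain ⟨f, hf, hmany⟩ := hL (fun i => GQC_H c L i) (fun i => (GQC_card hc L i).ge)
    (fun i g hg => by
      obtain ⟨x, -, hx⟩ := GQC_mem hg
      rw [hx]
      show 0 < GQC_s c i x L
      unfold GQC_s
      omega)
    (fun g hg => by
      rw [Fintype.mem_piFinset] at hg
      exact ⟨GQC_adm g hg, fun i j hij => GQC_inj hc g hg (congrArg Prod.fst hij)⟩)
  rw [Fintype.mem_piFinset] at hf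
  have hhits : ∀ N : ℕ, ∃ n ≥ N, K < hits f n := by
    intro N
    obtain ⟨n, hn, h⟩ := hmany N
    refine ⟨n, hn, ?_⟩
    have hK' : (0 : ℝ) < K := by exact_mod_cast hK
    have h2 : (K : ℝ) < hits f n := by
      refine lt_of_le_of_lt ?_ h
      push_cast
      nlinarith
    exact_mod_cast h2
  obtain ⟨I, hI, hinf⟩ := GQC_pigeon f K hhits
  obtain ⟨J, hJI, hJ⟩ := exists_subset_card_eq hI.le
  have hsnd : ∀ i, f i = ((f i).1, c) := by
    intro i
    obtain ⟨x, -, hx⟩ := GQC_mem (hf i)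
    rw [hx]
  have hpos : ∀ i, 0 < (f i).1 := by
    intro i
    obtain ⟨x, -, hx⟩ := GQC_mem (hf i)
    rw [hx]
    show 0 < GQC_s c i x L
    unfold GQC_s
    omega
  refine ⟨J.image fun i => (f i).1, ?_, ?_, ?_⟩
  · rw [card_image_of_injective _ (GQC_inj hc f hf), hJ]
  · intro s hs
    obtain ⟨i, -, rfl⟩ := mem_image.1 hs
    refine ⟨hpos i, ?_⟩
    obtain ⟨x, -, hx⟩ := GQC_mem (hf i)
    rw [hx]
    exact GQC_coprime c i x L
  · intro s hs t ht
    obtain ⟨i, hi, rfl⟩ := mem_image.1 hs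
    obtain ⟨j, hj, rfl⟩ := mem_image.1 ht
    refine h1.2.2 c (f i).1 (f j).1 (hpos i) (hpos j) fun N => ?_
    obtain ⟨n, hn, hp⟩ := hinf N
    refine ⟨n, hn, ?_, ?_⟩
    · rw [← hsnd i]
      exact hp i (hJI hi)
    · rw [← hsnd j]
      exact hp j (hJI hj)

end Pool.Agent.AT
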